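import Pool.Agent.QEP.Stmts
import Mathlib

/-!
# QEP, row CRY: the crossing inside a column is unique
-/

namespace Pool.Agent.QEP.H75

open Pool.Agent.QEP

theorem cry (hA : ADJStmt) (hI : INJStmt) : CRYStmt := by
  intro I J I' hX hY hadj hY'
  have hXI : X I' = X I := by
    rcases hadj with h | h
    · subst h
      rcases hA I with ⟨h1, -⟩ | ⟨h1, -⟩
      · exact h1
      · omega
    · subst h
      rcases hA I' with ⟨h1, -⟩ | ⟨h1, -⟩
      · exact h1.symm
      · omega
  exact hI I' J (by rw [hXI, hX]) (by rw [hY', hY])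

end Pool.Agent.QEP.H75
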