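import Pool.Agent.QEP.Stmts
import Mathlib

/-!
# QEP, rows ARC, DRE, DCO: the distances in horospherical coordinates
-/

namespace Pool.Agent.QEP.H75

open Pool.Agent.QEP
open scoped ComplexConjugate

theorem arc : ARCStmt := by
  intro u hu
  have hu0 : 0 < u := lt_of_lt_of_le one_pos hu
  have h1 : Real.exp (Real.arcosh u) = u + √(u ^ 2 - 1) := Real.exp_arcosh hu
  have h2 : √(u ^ 2 - 1) ≤ u := by
    rw [Real.sqrt_le_left hu0.le]
    linarith
  constructor
  · rw [Real.log_le_iff_le_exp hu0, h1]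
    linarith [Real.sqrt_nonneg (u ^ 2 - 1)]
  · rw [Real.le_log_iff_exp_le (by linarith), h1]
    linarith

theorem dre (hA : ARCStmt) : DREStmt := by
  intro m p q
  have hp : 0 < p.1.2 := p.2
  have hq : 0 < q.1.2 := q.2
  set r := p.1.2 with hr
  set r' := q.1.2 with hr'
  set D := ‖p.1.1 - q.1.1‖ ^ 2 with hD
  have hD0 : 0 ≤ D := sq_nonneg _
  have hrr : 0 < 2 * (r * r') := by positivity
  have hu : 1 + (D + (r - r') ^ 2) / (2 * r * r') = (D + r ^ 2 + r' ^ 2) / (2 * (r * r')) := by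
    field_simp
    ring
  have hd : dReal p q = Real.arcosh ((D + r ^ 2 + r' ^ 2) / (2 * (r * r'))) := by
    rw [← hu]
    rfl
  have hge : 1 ≤ (D + r ^ 2 + r' ^ 2) / (2 * (r * r')) := by
    rw [← hu]
    have : 0 ≤ (D + (r - r') ^ 2) / (2 * r * r') := by positivity
    linarith
  obtain ⟨h1, h2⟩ := hA _ hge
  refine ⟨?_, ?_, ?_⟩
  · rw [hd]; exact h1
  · rw [hd]
    have : 2 * ((D + r ^ 2 + r' ^ 2) / (2 * (r * r'))) = (D + r ^ 2 + r' ^ 2) / (r * r') := by
      field_simp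
    rw [this] at h2
    exact h2
  · rw [hd]; exact Real.arcosh_nonneg hge

/-- The real part of the Hermitian product. -/
lemma norm_sub_sq_eq (k : ℕ) (z z' : EuclideanSpace ℂ (Fin k)) :
    ‖z - z'‖ ^ 2 = ‖z‖ ^ 2 + ‖z'‖ ^ 2 - 2 * (∑ i, z i * conj (z' i)).re := by
  rw [EuclideanSpace.norm_sq_eq, EuclideanSpace.norm_sq_eq, EuclideanSpace.norm_sq_eq,
    Complex.re_sum, Finset.mul_sum, ← Finset.sum_add_distrib, ← Finset.sum_sub_distrib]
  refine Finset.sum_congr rfl fun i _ => ?_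
  rw [PiLp.sub_apply, Complex.sq_norm, Complex.sq_norm, Complex.sq_norm, Complex.normSq_apply,
    Complex.normSq_apply, Complex.normSq_apply]
  simp only [Complex.sub_re, Complex.sub_im, Complex.mul_re, Complex.conj_re, Complex.conj_im]
  ring

lemma herm_re (k : ℕ) (z z' : EuclideanSpace ℂ (Fin k)) (t t' r r' : ℝ) :
    (herm (siegel z t r) (siegel z' t' r')).re = - ((‖z - z'‖ ^ 2 + r + r') / 2) := by
  rw [norm_sub_sq_eq]
  unfold herm siegel
  simp only [Complex.add_re, Complex.mul_re, Complex.sub_re, Complex.sub_im, Complex.conj_re,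
    Complex.conj_im, Complex.div_ofNat_re, Complex.div_ofNat_im, Complex.I_re, Complex.I_im]
  ring

lemma herm_im (k : ℕ) (z z' : EuclideanSpace ℂ (Fin k)) (t t' r r' : ℝ) :
    (herm (siegel z t r) (siegel z' t' r')).im
      = (t - t' + 2 * (∑ i, z i * conj (z' i)).im) / 2 := by
  unfold herm siegel
  simp only [Complex.add_im, Complex.mul_im, Complex.sub_re, Complex.sub_im, Complex.conj_re,
    Complex.conj_im, Complex.div_ofNat_re, Complex.div_ofNat_im, Complex.I_re, Complex.I_im]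
  ring

lemma norm_herm_sq (k : ℕ) (z z' : EuclideanSpace ℂ (Fin k)) (t t' r r' : ℝ) :
    ‖herm (siegel z t r) (siegel z' t' r')‖ ^ 2
      = ((‖z - z'‖ ^ 2 + r + r') ^ 2 + (t - t' + 2 * (∑ i, z i * conj (z' i)).im) ^ 2) / 4 := by
  rw [Complex.sq_norm, Complex.normSq_apply, herm_re, herm_im]
  ring

lemma norm_herm_self (k : ℕ) (z : EuclideanSpace ℂ (Fin k)) (t r : ℝ) (hr : 0 < r) :
    ‖herm (siegel z t r) (siegel z t r)‖ = r := by
  have h0 : (∑ i, z i * conj (z i)).im = 0 := by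
    rw [Complex.im_sum]
    refine Finset.sum_eq_zero fun i _ => ?_
    simp only [Complex.mul_im, Complex.conj_re, Complex.conj_im]
    ring
  have h := norm_herm_sq k z z t t r r
  rw [h0, sub_self, norm_zero] at h
  have h2 : ‖herm (siegel z t r) (siegel z t r)‖ ^ 2 = r ^ 2 := by
    rw [h]; ring
  exact (sq_eq_sq₀ (norm_nonneg _) hr.le).mp h2

theorem dco (hA : ARCStmt) : DCOStmt := by
  intro k z z' t t' r r' hP hQ hr hr'
  set N : ℝ := (‖z - z'‖ ^ 2 + r + r') ^ 2 + (t - t' + 2 * (∑ i, z i * conj (z' i)).im) ^ 2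
    with hN
  have hrr : 0 < r * r' := mul_pos hr hr'
  have hNge : 4 * (r * r') ≤ N := by
    have h1 : 0 ≤ ‖z - z'‖ ^ 2 := sq_nonneg _
    have h2 : 0 ≤ (t - t' + 2 * (∑ i, z i * conj (z' i)).im) ^ 2 := sq_nonneg _
    have h3 : (r + r') ^ 2 ≤ (‖z - z'‖ ^ 2 + r + r') ^ 2 := by
      apply pow_le_pow_left₀ (by positivity)
      linarith
    have h4 : 4 * (r * r') ≤ (r + r') ^ 2 := by nlinarith [sq_nonneg (r - r')]
    rw [hN]
    linarith
  have hNpos : 0 < N := by linarith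
  set u : ℝ := ‖herm (siegel z t r) (siegel z' t' r')‖ /
    √(‖herm (siegel z t r) (siegel z t r)‖ * ‖herm (siegel z' t' r') (siegel z' t' r')‖) with hu
  have hd : dComplex ⟨siegel z t r, hP⟩ ⟨siegel z' t' r', hQ⟩ = 2 * Real.arcosh u := rfl
  have hu2 : u ^ 2 = N / (4 * (r * r')) := by
    rw [hu, norm_herm_self k z t r hr, norm_herm_self k z' t' r' hr', div_pow, norm_herm_sq,
      Real.sq_sqrt hrr.le]
    field_simp
    rfl
  have hu0 : 0 ≤ u := by positivity
  have hu1 : 1 ≤ u := by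
    have : 1 ≤ u ^ 2 := by
      rw [hu2, le_div_iff₀ (by positivity)]
      linarith
    nlinarith
  obtain ⟨h1, h2⟩ := hA u hu1
  refine ⟨?_, ?_, ?_⟩
  · rw [hd, ← hu2, Real.log_pow]
    push_cast
    linarith
  · rw [hd]
    have : N / (r * r') = (2 * u) ^ 2 := by
      rw [mul_pow, hu2]
      field_simp
      norm_num
    rw [this, Real.log_pow]
    push_cast
    linarith
  · rw [hd]
    have := Real.arcosh_nonneg hu1
    linarith

end Pool.Agent.QEP.H75
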