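import Pool.Agent.QEP.Stmts
import Mathlib

/-!
# QEP, row GLO: the global one dimensional theorem from the regional one, by an ultralimit
-/

namespace Pool.Agent.QEP.H75

open Pool.Agent.QEP
open scoped ComplexConjugate
open Filter Topology

/-- A sequence in a proper space which is eventually bounded converges along the
hyperfilter. -/
lemma exists_lim {E : Type*} [NormedAddCommGroup E] [ProperSpace E] (f : ℕ → E) (R : ℝ)
    (hf : ∀ᶠ n in atTop, ‖f n‖ ≤ R) :
    ∃ x : E, Tendsto f (hyperfilter ℕ : Filter ℕ) (𝓝 x) := by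
  have hc : IsCompact (Metric.closedBall (0 : E) R) := isCompact_closedBall 0 R
  have h1 : ((hyperfilter ℕ).map f : Filter E) ≤ 𝓟 (Metric.closedBall (0 : E) R) := by
    rw [le_principal_iff]
    have h2 : ∀ᶠ n in (hyperfilter ℕ : Filter ℕ), ‖f n‖ ≤ R :=
      hf.filter_mono Nat.hyperfilter_le_atTop
    change ∀ᶠ n in (hyperfilter ℕ : Filter ℕ), f n ∈ Metric.closedBall (0 : E) R
    filter_upwards [h2] with n hn
    simpa using hn
  obtain ⟨x, -, hx⟩ := hc.ultrafilter_le_nhds ((hyperfilter ℕ).map f) h1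
  exact ⟨x, hx⟩

lemma ev_pow (a : ℝ) : ∀ᶠ M : ℕ in atTop, a ≤ (9 : ℝ) ^ M := by
  have h : Tendsto (fun M : ℕ => (9 : ℝ) ^ M) atTop atTop :=
    tendsto_pow_atTop_atTop_of_one_lt (by norm_num)
  exact h.eventually_ge_atTop a

lemma ev_inv {r : ℝ} (hr : 0 < r) : ∀ᶠ M : ℕ in atTop, ((9 : ℝ) ^ M)⁻¹ ≤ r := by
  filter_upwards [ev_pow r⁻¹] with M hM
  exact inv_le_of_inv_le₀ hr hM

theorem glo : GLORow := by
  rintro ⟨C, hC, H⟩
  choose h T g h0 T0 g0 HH using H
  have hle : (hyperfilter ℕ : Filter ℕ) ≤ atTop := Nat.hyperfilter_le_atTop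
  -- the eventual versions of the inequalities
  have HE : ∀ s s' r r' : ℝ, 0 < r → 0 < r' → ∀ᶠ M : ℕ in atTop,
      ‖h M s - h M s'‖ ^ 2 ≤ C * (|s - s'| + r) ∧
      |T M s - T M s' + 2 * (h M s * conj (h M s')).im| ≤ C * (|s - s'| + r) ∧
      ‖g M s r - g M s' r'‖ ≤ C * (1 + |Real.log (r / r')| + Real.log (1 + |s - s'| / r)) ∧
      (‖h M s - h M s'‖ ^ 2 ≤ r →
        |s - s'| ≤ C * r * Real.exp (C * ‖g M s r - g M s' r‖)) := by
    intro s s' r r' hr hr'
    filter_upwards [ev_pow |s|, ev_pow |s'|, ev_inv hr, ev_pow r, ev_inv hr', ev_pow r']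
      with M a1 a2 a3 a4 a5 a6
    exact HH M s s' r r' a1 a2 a3 a4 a5 a6
  -- boundedness and limits
  have Lh : ∀ s : ℝ, ∃ x : ℂ, Tendsto (fun M => h M s) (hyperfilter ℕ : Filter ℕ) (𝓝 x) := by
    intro s
    refine exists_lim _ (1 + C * (|s| + 1)) ?_
    filter_upwards [HE s 0 1 1 one_pos one_pos] with M hM
    have h1 := hM.1
    rw [h0 M, sub_zero, sub_zero] at h1
    nlinarith [norm_nonneg (h M s), sq_nonneg (‖h M s‖ - 1)]
  have LT : ∀ s : ℝ, ∃ x : ℝ, Tendsto (fun M => T M s) (hyperfilter ℕ : Filter ℕ) (𝓝 x) := by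
    intro s
    refine exists_lim _ (C * (|s| + 1)) ?_
    filter_upwards [HE s 0 1 1 one_pos one_pos] with M hM
    have h1 := hM.2.1
    rw [h0 M, T0 M] at h1
    simpa using h1
  have Lg : ∀ s r : ℝ, ∃ x : ℂ, 0 < r →
      Tendsto (fun M => g M s r) (hyperfilter ℕ : Filter ℕ) (𝓝 x) := by
    intro s r
    by_cases hr : 0 < r
    · obtain ⟨x, hx⟩ := exists_lim (fun M => g M s r)
        (C * (1 + |Real.log (r / 1)| + Real.log (1 + |s - 0| / r))) (by
          filter_upwards [HE s 0 r 1 hr one_pos] with M hM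
          have h1 := hM.2.2.1
          rwa [g0 M, sub_zero] at h1)
      exact ⟨x, fun _ => hx⟩
    · exact ⟨0, fun h => absurd h hr⟩
  choose hh Hh using Lh
  choose TT HT using LT
  choose gg Hg using Lg
  have key1 : ∀ s s' r : ℝ, 0 < r → ‖hh s - hh s'‖ ^ 2 ≤ C * (|s - s'| + r) := by
    intro s s' r hr
    refine le_of_tendsto (((Hh s).sub (Hh s')).norm.pow 2) ?_
    filter_upwards [hle (HE s s' r r hr hr)] with M hM
    exact hM.1
  have key2 : ∀ s s' r : ℝ, 0 < r →
      |TT s - TT s' + 2 * (hh s * conj (hh s')).im| ≤ C * (|s - s'| + r) := by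
    intro s s' r hr
    have hconj : Tendsto (fun M => conj (h M s')) (hyperfilter ℕ : Filter ℕ)
        (𝓝 (conj (hh s'))) := (Complex.continuous_conj.tendsto _).comp (Hh s')
    have him : Tendsto (fun M => (h M s * conj (h M s')).im) (hyperfilter ℕ : Filter ℕ)
        (𝓝 ((hh s * conj (hh s')).im)) :=
      (Complex.continuous_im.tendsto _).comp ((Hh s).mul hconj)
    refine le_of_tendsto (((((HT s).sub (HT s')).add (him.const_mul 2))).abs) ?_
    filter_upwards [hle (HE s s' r r hr hr)] with M hM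
    exact hM.2.1
  have small : ∀ a b : ℝ, (∀ r : ℝ, 0 < r → a ≤ C * (b + r)) → a ≤ C * b := by
    intro a b hab
    refine le_of_forall_pos_le_add ?_
    intro e he
    have hCp : 0 < C := lt_of_lt_of_le one_pos hC
    have h1 := hab (e / C) (div_pos he hCp)
    rw [mul_add, mul_div_cancel₀ _ hCp.ne'] at h1
    exact h1
  refine ⟨C, hh, TT, gg, hC, ?_⟩
  intro s s' r r' hr hr'
  refine ⟨small _ _ (fun ρ hρ => key1 s s' ρ hρ), small _ _ (fun ρ hρ => key2 s s' ρ hρ),
    ?_, ?_⟩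
  · refine le_of_tendsto (((Hg s r hr).sub (Hg s' r' hr')).norm) ?_
    filter_upwards [hle (HE s s' r r' hr hr')] with M hM
    exact hM.2.2.1
  · intro hlt
    have ev1 : ∀ᶠ M in (hyperfilter ℕ : Filter ℕ), ‖h M s - h M s'‖ ^ 2 < r :=
      (((Hh s).sub (Hh s')).norm.pow 2).eventually_lt_const hlt
    have hcont : Tendsto (fun M => C * r * Real.exp (C * ‖g M s r - g M s' r‖))
        (hyperfilter ℕ : Filter ℕ) (𝓝 (C * r * Real.exp (C * ‖gg s r - gg s' r‖))) :=
      ((Real.continuous_exp.tendsto _).comp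
        ((((Hg s r hr).sub (Hg s' r hr)).norm).const_mul C)).const_mul (C * r)
    refine ge_of_tendsto hcont ?_
    filter_upwards [ev1, hle (HE s s' r r' hr hr')] with M h1 h2
    exact h2.2.2.2 h1.le

end Pool.Agent.QEP.H75
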